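import Pool.Agent.Lib.MP_1ccaae_co.Ten

set_option autoImplicit false
open scoped Classical

namespace Pool.Agent.Lib.MP_1ccaae_co

variable {V : Type*}

/-- `X` contains `k` pairwise `A`-related distinct elements -/
def Cl (A : V → V → Prop) (k : ℕ) (X : Finset V) : Prop :=
  ∃ s ⊆ X, s.card = k ∧ ∀ x ∈ s, ∀ y ∈ s, x ≠ y → A x y

lemma Cl.mono {A : V → V → Prop} {k : ℕ} {X Y : Finset V} (h : Cl A k X) (hXY : X ⊆ Y) :
    Cl A k Y := by
  obtain ⟨s, hs, h1, h2⟩ := h
  exact ⟨s, hs.trans hXY, h1, h2⟩

/-- greedy packing of disjoint cliques -/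
lemma pack {A B : V → V → Prop} (hAB : ∀ x y, x ≠ y → A x y → B x y → False) (k : ℕ) (hk : 1 ≤ k) :
    ∀ (n : ℕ) (S : Finset V), S.card ≤ n → ∃ U ⊆ S, ¬ Cl A k (S \ U) ∧ ∃ m : ℕ, m * k ≤ U.card ∧
      ∀ t ⊆ U, (∀ x ∈ t, ∀ y ∈ t, x ≠ y → B x y) → t.card ≤ m := by
  intro n
  induction n with
  | zero =>
    intro S hS
    refine ⟨∅, Finset.empty_subset _, ?_, 0, by simp, ?_⟩
    · rintro ⟨s, hs, hsc, -⟩
      have h1 := Finset.card_le_card (hs.trans Finset.sdiff_subset)
      omega
    · intro t ht _
      have := Finset.card_le_card ht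
      simpa using this
  | succ n ih =>
    intro S hS
    by_cases hcl : Cl A k S
    · obtain ⟨s, hs, hsc, hsA⟩ := hcl
      have hc : (S \ s).card = S.card - s.card := Finset.card_sdiff_of_subset hs
      have hle := Finset.card_le_card hs
      obtain ⟨U, hU, hUA, m, hm, hmB⟩ := ih (S \ s) (by omega)
      refine ⟨U ∪ s, Finset.union_subset (hU.trans Finset.sdiff_subset) hs, ?_, m + 1, ?_, ?_⟩
      · have : S \ (U ∪ s) = (S \ s) \ U := by
          rw [Finset.union_comm, Finset.sdiff_union_distrib, Finset.sdiff_sdiff_left']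
        rw [this]
        exact hUA
      · have hdis : Disjoint U s := by
          rw [Finset.disjoint_left]
          intro x hx hx2
          exact (Finset.mem_sdiff.1 (hU hx)).2 hx2
        rw [Finset.card_union_of_disjoint hdis, hsc, Nat.succ_mul]
        omega
      · intro t ht htB
        have h1 : t = (t ∩ U) ∪ (t ∩ s) := by
          rw [← Finset.inter_union_distrib_left]
          exact (Finset.inter_eq_left.2 ht).symm
        have h2 : (t ∩ U).card ≤ m := hmB _ Finset.inter_subset_right (fun x hx y hy hxy =>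
          htB x (Finset.mem_inter.1 hx).1 y (Finset.mem_inter.1 hy).1 hxy)
        have h3 : (t ∩ s).card ≤ 1 := by
          rw [Finset.card_le_one]
          intro x hx y hy
          by_contra hxy
          rw [Finset.mem_inter] at hx hy
          exact hAB x y hxy (hsA x hx.2 y hy.2 hxy) (htB x hx.1 y hy.1 hxy)
        have h4 := Finset.card_union_le (t ∩ U) (t ∩ s)
        rw [← h1] at h4
        omega
    · refine ⟨∅, Finset.empty_subset _, ?_, 0, by simp, ?_⟩
      · rwa [Finset.sdiff_empty]
      · intro t ht _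
        have := Finset.card_le_card ht
        simpa using this

/-- two edge-disjoint graphs on fewer than `k²` vertices -/
lemma two {A B : V → V → Prop} (hAB : ∀ x y, x ≠ y → A x y → B x y → False) {k : ℕ} (hk : 1 ≤ k)
    {S : Finset V} (hS : S.card < k * k) : ∃ X ⊆ S, ¬ Cl A k X ∧ ¬ Cl B k (S \ X) := by
  obtain ⟨U, hU, hUA, m, hm, hmB⟩ := pack hAB k hk S.card S le_rfl
  refine ⟨S \ U, Finset.sdiff_subset, hUA, ?_⟩
  rw [Finset.sdiff_sdiff_eq_self hU]
  rintro ⟨s, hs, hsc, hsB⟩
  have h1 := hmB s hs hsB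
  have h2 := Finset.card_le_card hU
  rw [hsc] at h1
  have h3 : k * k ≤ m * k := Nat.mul_le_mul_right k h1
  omega

/-- the hypotheses on three (symmetric, irreflexive) relations, pairwise disjoint -/
structure Three (A : Fin 3 → V → V → Prop) : Prop where
  symm : ∀ i x y, A i x y → A i y x
  irr : ∀ i x, ¬ A i x x
  dis : ∀ i j, i ≠ j → ∀ x y, A i x y → A j x y → False

/-- finish with two colours -/
lemma combine {A : Fin 3 → V → V → Prop} (hA : Three A) {k : ℕ} (hk : 1 ≤ k) {S Y : Finset V}
    (hY : Y ⊆ S) (i : Fin 3) (hYi : ¬ Cl (A i) k Y) (hc : (S \ Y).card < k * k) :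
    ∃ p : V → Fin 3, ∀ j, ¬ Cl (A j) k (S.filter (fun v => p v = j)) := by
  obtain ⟨j, l, hij, hil, hjl, hall⟩ : ∃ j l : Fin 3, i ≠ j ∧ i ≠ l ∧ j ≠ l ∧
      ∀ q : Fin 3, q = i ∨ q = j ∨ q = l := by
    clear hYi; revert i; decide
  obtain ⟨X, hX, hXj, hXl⟩ := two (A := A j) (B := A l) (fun x y _ => hA.dis j l hjl x y) hk hc
  refine ⟨fun v => if v ∈ Y then i else if v ∈ X then j else l, ?_⟩
  intro q hq
  rcases hall q with rfl | rfl | rfl
  · refine hYi (hq.mono ?_)
    intro v hv
    rw [Finset.mem_filter] at hv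
    by_contra hvY
    have h := hv.2
    simp only [hvY, if_false] at h
    split_ifs at h
    · exact hij h.symm
    · exact hil h.symm
  · refine hXj (hq.mono ?_)
    intro v hv
    rw [Finset.mem_filter] at hv
    have h := hv.2
    by_cases hvY : v ∈ Y
    · simp only [hvY, if_true] at h
      exact absurd h hij
    · simp only [hvY, if_false] at h
      by_contra hvX
      simp only [hvX, if_false] at h
      exact hjl h.symm
  · refine hXl (hq.mono ?_)
    intro v hv
    rw [Finset.mem_filter] at hv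
    have h := hv.2
    by_cases hvY : v ∈ Y
    · simp only [hvY, if_true] at h
      exact absurd h hil
    · simp only [hvY, if_false] at h
      by_cases hvX : v ∈ X
      · simp only [hvX, if_true] at h
        exact absurd h hjl
      · exact Finset.mem_sdiff.2 ⟨Finset.mem_sdiff.2 ⟨hv.1, hvY⟩, hvX⟩

lemma quadFree_of {A : V → V → Prop} (hsym : ∀ x y, A x y → A y x) (hirr : ∀ x, ¬ A x x)
    {S : Finset V} (h : ¬ Cl A 4 S) : QuadFree A S := by
  intro w hw x hx y hy z hz hwx hwy hwz hxy hxz hyz
  have ne : ∀ a b, A a b → a ≠ b := fun a b hab h => hirr b (h ▸ hab)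
  refine h ⟨{w, x, y, z}, ?_, Finset.card_eq_four.2 ⟨w, x, y, z, ne _ _ hwx, ne _ _ hwy, ne _ _ hwz,
    ne _ _ hxy, ne _ _ hxz, ne _ _ hyz, rfl⟩, ?_⟩
  · intro p hp
    simp only [Finset.mem_insert, Finset.mem_singleton] at hp
    rcases hp with rfl | rfl | rfl | rfl
    · exact hw
    · exact hx
    · exact hy
    · exact hz
  · intro p hp q hq hpq
    simp only [Finset.mem_insert, Finset.mem_singleton] at hp hq
    rcases hp with rfl | rfl | rfl | rfl <;> rcases hq with rfl | rfl | rfl | rfl <;>
      first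
      | exact absurd rfl hpq
      | assumption
      | exact hsym _ _ (by assumption)

lemma triFree_not_cl {A : V → V → Prop} {X : Finset V} (h : TriFree A X) : ¬ Cl A 3 X := by
  rintro ⟨s, hs, hsc, hsA⟩
  obtain ⟨a, b, c, hab, hac, hbc, rfl⟩ := Finset.card_eq_three.1 hsc
  have ha : a ∈ ({a, b, c} : Finset V) := by simp
  have hb : b ∈ ({a, b, c} : Finset V) := by simp
  have hc : c ∈ ({a, b, c} : Finset V) := by simp
  exact h a (hs ha) b (hs hb) c (hs hc) (hsA a ha b hb hab) (hsA a ha c hc hac)
    (hsA b hb c hc hbc)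

lemma not_cl_of_card {A : V → V → Prop} {k : ℕ} {X : Finset V} (h : X.card < k) : ¬ Cl A k X := by
  rintro ⟨s, hs, hsc, -⟩
  have := Finset.card_le_card hs
  omega

/-- three edge-disjoint graphs without a clique on `k + 1` vertices, on at most 15 vertices -/
lemma three {A : Fin 3 → V → V → Prop} (hA : Three A) {k : ℕ} (hk : 3 ≤ k) {S : Finset V}
    (hS : S.card ≤ 15) (hfree : ∀ i, ¬ Cl (A i) (k + 1) S) :
    ∃ p : V → Fin 3, ∀ j, ¬ Cl (A j) k (S.filter (fun v => p v = j)) := by
  have hempty : ¬ Cl (A 0) k (∅ : Finset V) := not_cl_of_card (by simp; omega)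
  rcases Nat.lt_or_ge 3 k with hk4 | hk3
  · refine combine hA (by omega) (Finset.empty_subset S) 0 hempty ?_
    rw [Finset.sdiff_empty]
    have : 4 * 4 ≤ k * k := Nat.mul_le_mul hk4 hk4
    omega
  obtain rfl : k = 3 := le_antisymm hk3 hk
  have hQ : ∀ i, QuadFree (A i) S := fun i => quadFree_of (hA.symm i) (hA.irr i) (hfree i)
  by_cases h8 : S.card ≤ 8
  · refine combine hA (by omega) (Finset.empty_subset S) 0 hempty ?_
    rw [Finset.sdiff_empty]
    omega
  by_cases h9 : S.card ≤ 9
  · obtain ⟨v, hv⟩ : S.Nonempty := Finset.card_pos.1 (by omega)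
    have hsub : ({v} : Finset V) ⊆ S := Finset.singleton_subset_iff.2 hv
    refine combine hA (by omega) hsub 0 (not_cl_of_card (by simp)) ?_
    rw [Finset.card_sdiff_of_subset hsub, Finset.card_singleton]
    omega
  by_cases h14 : S.card ≤ 14
  · obtain ⟨T, hT, hTc⟩ := Finset.exists_subset_card_eq (show 10 ≤ S.card by omega)
    obtain ⟨X, hX, hXc, hXt⟩ := ten (hA.symm 0) (hA.irr 0) hTc ((hQ 0).mono hT)
    refine combine hA (by omega) (hX.trans hT) 0 (triFree_not_cl hXt) ?_
    rw [Finset.card_sdiff_of_subset (hX.trans hT)]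
    omega
  · obtain ⟨v, hv⟩ : S.Nonempty := Finset.card_pos.1 (by omega)
    obtain ⟨i, hi⟩ : ∃ i, ((S.erase v).filter (A i v)).card ≤ 4 := by
      by_contra hcon
      push Not at hcon
      have h0 := hcon 0
      have h1 := hcon 1
      have h2 := hcon 2
      have hd01 : Disjoint ((S.erase v).filter (A 0 v)) ((S.erase v).filter (A 1 v)) := by
        rw [Finset.disjoint_left]
        intro x hx hx2
        exact hA.dis 0 1 (by decide) v x (Finset.mem_filter.1 hx).2 (Finset.mem_filter.1 hx2).2
      have hd2 : Disjoint ((S.erase v).filter (A 0 v) ∪ (S.erase v).filter (A 1 v))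
          ((S.erase v).filter (A 2 v)) := by
        rw [Finset.disjoint_left]
        intro x hx hx2
        rw [Finset.mem_union] at hx
        rcases hx with hx | hx
        · exact hA.dis 0 2 (by decide) v x (Finset.mem_filter.1 hx).2 (Finset.mem_filter.1 hx2).2
        · exact hA.dis 1 2 (by decide) v x (Finset.mem_filter.1 hx).2 (Finset.mem_filter.1 hx2).2
      have hc := Finset.card_union_of_disjoint hd2
      rw [Finset.card_union_of_disjoint hd01] at hc
      have hsub : (S.erase v).filter (A 0 v) ∪ (S.erase v).filter (A 1 v) ∪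
          (S.erase v).filter (A 2 v) ⊆ S.erase v :=
        Finset.union_subset (Finset.union_subset (Finset.filter_subset _ _)
          (Finset.filter_subset _ _)) (Finset.filter_subset _ _)
      have hle := Finset.card_le_card hsub
      have he := Finset.card_erase_of_mem hv
      omega
    have he := Finset.card_erase_of_mem hv
    have hc10 : 10 ≤ ((S.erase v) \ ((S.erase v).filter (A i v))).card := by
      rw [Finset.card_sdiff_of_subset (Finset.filter_subset _ _)]
      omega
    obtain ⟨T, hT, hTc⟩ := Finset.exists_subset_card_eq hc10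
    have hTS : T ⊆ S := (hT.trans Finset.sdiff_subset).trans (Finset.erase_subset _ _)
    obtain ⟨X, hX, hXc, hXt⟩ := ten (hA.symm i) (hA.irr i) hTc ((hQ i).mono hTS)
    have hXv : ∀ x ∈ X, x ≠ v ∧ ¬ A i v x := by
      intro x hx
      have h1 := hT (hX hx)
      rw [Finset.mem_sdiff, Finset.mem_filter] at h1
      exact ⟨(Finset.mem_erase.1 h1.1).1, fun h => h1.2 ⟨h1.1, h⟩⟩
    have hvX : v ∉ X := fun h => (hXv v h).1 rfl
    have hsub : insert v X ⊆ S := Finset.insert_subset hv (hX.trans hTS)
    refine combine hA (by omega) hsub i (triFree_not_cl ?_) ?_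
    · intro x hx y hy z hz hxy hxz hyz
      have key : ∀ a ∈ insert v X, ∀ b ∈ insert v X, A i a b → a ∈ X := by
        intro a ha b hb hab
        rcases Finset.mem_insert.1 ha with rfl | ha'
        · rcases Finset.mem_insert.1 hb with hb' | hb'
          · rw [hb'] at hab
            exact absurd hab (hA.irr i _)
          · exact absurd hab (hXv b hb').2
        · exact ha'
      exact hXt x (key x hx y hy hxy) y (key y hy z hz hyz) z (key z hz x hx (hA.symm i _ _ hxz))
        hxy hxz hyz
    · rw [Finset.card_sdiff_of_subset hsub, Finset.card_insert_of_notMem hvX]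
      omega

end Pool.Agent.Lib.MP_1ccaae_co
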