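import Pool.Agent.Lib.MP_1ccaae_co.Partition

set_option autoImplicit false
open scoped Classical

namespace Pool.Agent.Lib.MP_1ccaae_co

/-- `G → K_k` with `r` colours: every colouring of the pairs of vertices with `r` colours has a
clique of `G` on `k` vertices all of whose edges have one colour. -/
def Arrows (r k : ℕ) {n : ℕ} (G : SimpleGraph (Fin n)) : Prop :=
  ∀ c : Sym2 (Fin n) → Fin r, ∃ s : Finset (Fin n), s.card = k ∧
    ∃ i : Fin r, ∀ x ∈ s, ∀ y ∈ s, x ≠ y → G.Adj x y ∧ c s(x, y) = i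

/-- `G` is `r`-Ramsey-minimal for `K_k`: it arrows, no proper subgraph on the same vertex set
arrows, and no vertex is isolated. -/
def RamseyMinimal (r k : ℕ) {n : ℕ} (G : SimpleGraph (Fin n)) : Prop :=
  Arrows r k G ∧ (∀ G' : SimpleGraph (Fin n), G' < G → ¬ Arrows r k G') ∧
    ∀ v : Fin n, ∃ w : Fin n, G.Adj v w

/-- the graph without the edges at `v` -/
def dropV {n : ℕ} (G : SimpleGraph (Fin n)) (v : Fin n) : SimpleGraph (Fin n) where
  Adj x y := G.Adj x y ∧ x ≠ v ∧ y ≠ v
  symm := ⟨fun _ _ h => ⟨h.1.symm, h.2.2, h.2.1⟩⟩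
  loopless := ⟨fun _ h => h.1.ne rfl⟩

/-- the recolouring -/
def recol {n : ℕ} (c : Sym2 (Fin n) → Fin 3) (p : Fin n → Fin 3) (v : Fin n) :
    Sym2 (Fin n) → Fin 3 :=
  Sym2.lift ⟨fun x y => if x = v then p y else if y = v then p x else c s(x, y), by
    intro x y
    by_cases hx : x = v
    · by_cases hy : y = v
      · simp [hx, hy]
      · simp [hx, hy]
    · by_cases hy : y = v
      · simp [hx, hy]
      · simp only [hx, hy, if_false]
        rw [Sym2.eq_swap]⟩

lemma recol_left {n : ℕ} (c : Sym2 (Fin n) → Fin 3) (p : Fin n → Fin 3) (v y : Fin n) :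
    recol c p v s(v, y) = p y := by
  unfold recol
  rw [Sym2.lift_mk]
  simp

lemma recol_of_ne {n : ℕ} (c : Sym2 (Fin n) → Fin 3) (p : Fin n → Fin 3) (v x y : Fin n)
    (hx : x ≠ v) (hy : y ≠ v) : recol c p v s(x, y) = c s(x, y) := by
  unfold recol
  rw [Sym2.lift_mk]
  simp [hx, hy]

/-- every vertex of a `3`-Ramsey-minimal graph for a clique on at least four vertices has degree
at least 16 -/
lemma degree_ge {n k : ℕ} (hk : 3 ≤ k) {G : SimpleGraph (Fin n)} (hG : RamseyMinimal 3 (k + 1) G)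
    (v : Fin n) : 16 ≤ G.degree v := by
  by_contra hdeg
  obtain ⟨harr, hmin, hiso⟩ := hG
  obtain ⟨w, hw⟩ := hiso v
  have hlt : dropV G v < G := by
    rw [lt_iff_le_not_ge]
    refine ⟨fun x y h => h.1, fun h => ?_⟩
    exact (h hw).2.1 rfl
  have hno := hmin _ hlt
  unfold Arrows at hno
  push Not at hno
  obtain ⟨c, hc⟩ := hno
  have hA : Three (fun i x y => (dropV G v).Adj x y ∧ c s(x, y) = i) := by
    refine ⟨?_, ?_, ?_⟩
    · intro i x y h
      refine ⟨h.1.symm, ?_⟩
      rw [Sym2.eq_swap]; exact h.2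
    · intro i x h
      exact h.1.ne rfl
    · intro i j hij x y h1 h2
      exact hij (h1.2.symm.trans h2.2)
  have hS : (G.neighborFinset v).card ≤ 15 := by
    rw [SimpleGraph.card_neighborFinset_eq_degree]; omega
  obtain ⟨p, hp⟩ := three hA hk hS (by
    rintro i ⟨s, -, hsc, hs⟩
    obtain ⟨x, hx, y, hy, hxy, h⟩ := hc s hsc i
    have := hs x hx y hy hxy
    exact h this.1 this.2)
  obtain ⟨s, hsc, i, hs⟩ := harr (recol c p v)
  by_cases hv : v ∈ s
  · refine hp i ⟨s.erase v, ?_, ?_, ?_⟩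
    · intro x hx
      rw [Finset.mem_erase] at hx
      have h1 := hs v hv x hx.2 hx.1.symm
      rw [recol_left] at h1
      rw [Finset.mem_filter, SimpleGraph.mem_neighborFinset]
      exact h1
    · rw [Finset.card_erase_of_mem hv]; omega
    · intro x hx y hy hxy
      rw [Finset.mem_erase] at hx hy
      have h1 := hs x hx.2 y hy.2 hxy
      rw [recol_of_ne c p v x y hx.1 hy.1] at h1
      exact ⟨⟨h1.1, hx.1, hy.1⟩, h1.2⟩
  · obtain ⟨x, hx, y, hy, hxy, h⟩ := hc s hsc i
    have hxv : x ≠ v := fun h => hv (h ▸ hx)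
    have hyv : y ≠ v := fun h => hv (h ▸ hy)
    have h1 := hs x hx y hy hxy
    rw [recol_of_ne c p v x y hxv hyv] at h1
    exact h ⟨h1.1, hxv, hyv⟩ h1.2

/-- pigeonhole -/
lemma exists_big {α : Type*} {r : ℕ} (S : Finset α) (f : α → Fin r) (m : ℕ) (h : r * m < S.card) :
    ∃ i, m < (S.filter (fun x => f x = i)).card := by
  by_contra hcon
  push Not at hcon
  have h1 := Finset.card_eq_sum_card_fiberwise (s := S) (t := Finset.univ) (f := f)
    (fun x _ => Finset.mem_univ _)
  have h2 : ∑ i : Fin r, (S.filter (fun x => f x = i)).card ≤ ∑ _i : Fin r, m :=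
    Finset.sum_le_sum (fun i _ => hcon i)
  rw [Finset.sum_const, Finset.card_univ, Fintype.card_fin, smul_eq_mul] at h2
  omega

/-- `K_17 → K_3` with three colours -/
lemma arrows17 : Arrows 3 3 (⊤ : SimpleGraph (Fin 17)) := by
  intro c
  have mk : ∀ (i : Fin 3) (x y z : Fin 17), x ≠ y → x ≠ z → y ≠ z → c s(x, y) = i → c s(x, z) = i →
      c s(y, z) = i → ∃ s : Finset (Fin 17), s.card = 3 ∧
      ∃ i : Fin 3, ∀ x ∈ s, ∀ y ∈ s, x ≠ y → (⊤ : SimpleGraph (Fin 17)).Adj x y ∧ c s(x, y) = i := by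
    intro i x y z hxy hxz hyz h1 h2 h3
    refine ⟨{x, y, z}, Finset.card_eq_three.2 ⟨x, y, z, hxy, hxz, hyz, rfl⟩, i, ?_⟩
    have h1' : c s(y, x) = i := by rw [Sym2.eq_swap]; exact h1
    have h2' : c s(z, x) = i := by rw [Sym2.eq_swap]; exact h2
    have h3' : c s(z, y) = i := by rw [Sym2.eq_swap]; exact h3
    intro p hp q hq hpq
    refine ⟨hpq, ?_⟩
    simp only [Finset.mem_insert, Finset.mem_singleton] at hp hq
    rcases hp with rfl | rfl | rfl <;> rcases hq with rfl | rfl | rfl <;>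
      first
      | exact absurd rfl hpq
      | assumption
  by_contra hcon
  have hno : ∀ (i : Fin 3) (x y z : Fin 17), x ≠ y → x ≠ z → y ≠ z → c s(x, y) = i → c s(x, z) = i →
      c s(y, z) ≠ i := fun i x y z hxy hxz hyz h1 h2 h3 => hcon (mk i x y z hxy hxz hyz h1 h2 h3)
  -- six neighbours of vertex 0 with one colour
  obtain ⟨i, hi⟩ := exists_big ((Finset.univ : Finset (Fin 17)).erase 0) (fun x => c s(0, x)) 5 (by
    rw [Finset.card_erase_of_mem (Finset.mem_univ _), Finset.card_univ, Fintype.card_fin]; norm_num)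
  set X := ((Finset.univ : Finset (Fin 17)).erase 0).filter (fun x => c s(0, x) = i) with hX
  have hXmem : ∀ x ∈ X, x ≠ 0 ∧ c s(0, x) = i := by
    intro x hx
    rw [hX, Finset.mem_filter, Finset.mem_erase] at hx
    exact ⟨hx.1.1, hx.2⟩
  have hXi : ∀ x ∈ X, ∀ y ∈ X, x ≠ y → c s(x, y) ≠ i := by
    intro x hx y hy hxy
    exact hno i 0 x y (hXmem x hx).1.symm (hXmem y hy).1.symm hxy (hXmem x hx).2 (hXmem y hy).2
  obtain ⟨v, hv⟩ : X.Nonempty := Finset.card_pos.1 (by omega)
  obtain ⟨j, l, hij, hil, hjl, hall⟩ : ∃ j l : Fin 3, i ≠ j ∧ i ≠ l ∧ j ≠ l ∧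
      ∀ q : Fin 3, q = i ∨ q = j ∨ q = l := by
    clear hi X hX hXmem hXi hv
    revert i; decide
  have hsplit : X.erase v = (X.erase v).filter (fun x => c s(v, x) = j) ∪
      (X.erase v).filter (fun x => c s(v, x) = l) := by
    ext x
    rw [Finset.mem_union, Finset.mem_filter, Finset.mem_filter]
    constructor
    · intro hx
      have h1 := Finset.mem_erase.1 hx
      have h2 := hXi v hv x h1.2 h1.1.symm
      rcases hall (c s(v, x)) with h | h | h
      · exact absurd h h2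
      · exact Or.inl ⟨hx, h⟩
      · exact Or.inr ⟨hx, h⟩
    · rintro (h | h) <;> exact h.1
  have hcard := Finset.card_union_le ((X.erase v).filter (fun x => c s(v, x) = j))
    ((X.erase v).filter (fun x => c s(v, x) = l))
  rw [← hsplit, Finset.card_erase_of_mem hv] at hcard
  -- a symmetric finish
  have fin : ∀ j l : Fin 3, (∀ q : Fin 3, q = i ∨ q = j ∨ q = l) →
      2 < ((X.erase v).filter (fun x => c s(v, x) = j)).card → False := by
    intro j l hall h3
    obtain ⟨a, ha, b, hb, d, hd, hab, had, hbd⟩ := Finset.two_lt_card.1 h3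
    rw [Finset.mem_filter, Finset.mem_erase] at ha hb hd
    have col : ∀ x y, ((x ≠ v ∧ x ∈ X) ∧ c s(v, x) = j) → ((y ≠ v ∧ y ∈ X) ∧ c s(v, y) = j) →
        x ≠ y → c s(x, y) = l := by
      intro x y hx hy hxy
      rcases hall (c s(x, y)) with h | h | h
      · exact absurd h (hXi x hx.1.2 y hy.1.2 hxy)
      · exact absurd h (hno j v x y hx.1.1.symm hy.1.1.symm hxy hx.2 hy.2)
      · exact h
    exact hno l a b d hab had hbd (col a b ha hb hab) (col a d ha hd had) (col b d hb hd hbd)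
  rcases Nat.lt_or_ge 2 ((X.erase v).filter (fun x => c s(v, x) = j)).card with h | h
  · exact fin j l hall h
  · exact fin l j (fun q => by rcases hall q with h | h | h <;> simp [h]) (by omega)

/-- a vertex without neighbours can be removed -/
lemma arrows_comap {r k m : ℕ} (hr : 0 < r) (hk : 2 ≤ k) {H : SimpleGraph (Fin (m + 1))}
    (hH : Arrows r k H) {v : Fin (m + 1)} (hv : ∀ w, ¬ H.Adj v w) :
    Arrows r k (H.comap v.succAbove) := by
  intro c'
  have hinj : Function.Injective (Sym2.map v.succAbove) :=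
    Sym2.map.injective (Fin.succAbove_right_injective)
  obtain ⟨s, hsc, i, hs⟩ := hH (Function.extend (Sym2.map v.succAbove) c' (fun _ => ⟨0, hr⟩))
  have hvs : v ∉ s := by
    intro hvs
    obtain ⟨w, hw⟩ : (s.erase v).Nonempty := by
      apply Finset.card_pos.1
      rw [Finset.card_erase_of_mem hvs]; omega
    rw [Finset.mem_erase] at hw
    exact hv w (hs v hvs w hw.2 hw.1.symm).1
  refine ⟨Finset.univ.filter (fun x => v.succAbove x ∈ s), ?_, i, ?_⟩
  · rw [← hsc, ← Finset.card_image_of_injective _ (Fin.succAbove_right_injective (p := v))]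
    congr 1
    ext y
    rw [Finset.mem_image]
    constructor
    · rintro ⟨x, hx, rfl⟩
      exact (Finset.mem_filter.1 hx).2
    · intro hy
      have hyv : y ≠ v := fun h => hvs (h ▸ hy)
      obtain ⟨x, hx⟩ := Fin.exists_succAbove_eq hyv
      exact ⟨x, Finset.mem_filter.2 ⟨Finset.mem_univ _, by rw [hx]; exact hy⟩, hx⟩
  · intro x hx y hy hxy
    have h1 := hs _ (Finset.mem_filter.1 hx).2 _ (Finset.mem_filter.1 hy).2
      (fun h => hxy (Fin.succAbove_right_injective h))
    refine ⟨h1.1, ?_⟩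
    rw [← h1.2]
    have : s(v.succAbove x, v.succAbove y) = Sym2.map v.succAbove s(x, y) := rfl
    rw [this, hinj.extend_apply]

/-- if `K_N` arrows then there is a Ramsey-minimal graph of minimum degree less than `N` -/
lemma exists_minimal {r k N : ℕ} (hr : 0 < r) (hk : 2 ≤ k)
    (hN : Arrows r k (⊤ : SimpleGraph (Fin N))) :
    ∃ m : ℕ, ∃ H : SimpleGraph (Fin m), RamseyMinimal r k H ∧ H.minDegree < N := by
  have hex : ∃ m : ℕ, ∃ H : SimpleGraph (Fin m), Arrows r k H := ⟨N, _, hN⟩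
  set m := Nat.find hex with hm
  obtain ⟨H₀, hH₀⟩ : ∃ H : SimpleGraph (Fin m), Arrows r k H := Nat.find_spec hex
  have hmN : m ≤ N := Nat.find_min' hex ⟨_, hN⟩
  obtain ⟨H, hH, hHmin⟩ : ∃ H : SimpleGraph (Fin m), Arrows r k H ∧
      ∀ H' : SimpleGraph (Fin m), H' < H → ¬ Arrows r k H' := by
    have hwf : WellFounded (fun a b : SimpleGraph (Fin m) => a < b) := wellFounded_lt
    obtain ⟨H, hH1, hH2⟩ := hwf.has_min {H | Arrows r k H} ⟨H₀, hH₀⟩
    exact ⟨H, hH1, fun H' h1 h2 => hH2 H' h2 h1⟩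
  have hiso : ∀ v : Fin m, ∃ w : Fin m, H.Adj v w := by
    intro v
    by_contra hcon
    push Not at hcon
    have hmpos : 0 < m := lt_of_le_of_lt (Nat.zero_le _) v.2
    obtain ⟨m', hm'⟩ : ∃ m', m = m' + 1 := ⟨m - 1, by omega⟩
    have hlt : m' < m := by omega
    clear_value m
    subst hm'
    exact Nat.find_min hex (by rw [← hm]; exact hlt) ⟨_, arrows_comap hr hk hH hcon⟩
  have hmpos : 0 < m := by
    by_contra h
    obtain ⟨s, hsc, -⟩ := hH (fun _ => ⟨0, hr⟩)
    have h1 : s.card ≤ m := by simpa using Finset.card_le_univ s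
    omega
  refine ⟨m, H, ⟨hH, hHmin, hiso⟩, ?_⟩
  have h1 := H.minDegree_le_degree ⟨0, hmpos⟩
  have h2 := H.degree_lt_card_verts ⟨0, hmpos⟩
  rw [Fintype.card_fin] at h2
  omega

end Pool.Agent.Lib.MP_1ccaae_co
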