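import Mathlib

set_option autoImplicit false

namespace Pool.Agent.Lib.MP_1ccaae_co

variable {V : Type*}

/-- no three mutually related elements in `X` -/
def TriFree (A : V → V → Prop) (X : Finset V) : Prop :=
  ∀ x ∈ X, ∀ y ∈ X, ∀ z ∈ X, A x y → A x z → A y z → False

/-- no four mutually related elements in `X` -/
def QuadFree (A : V → V → Prop) (X : Finset V) : Prop :=
  ∀ w ∈ X, ∀ x ∈ X, ∀ y ∈ X, ∀ z ∈ X, A w x → A w y → A w z → A x y → A x z → A y z → False

lemma QuadFree.mono {A : V → V → Prop} {X Y : Finset V} (h : QuadFree A Y) (hXY : X ⊆ Y) :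
    QuadFree A X := fun w hw x hx y hy z hz =>
  h w (hXY hw) x (hXY hx) y (hXY hy) z (hXY hz)

section
variable [DecidableEq V]

/-- four elements that are pairwise related cannot be found, so a set of at least four elements
contains two distinct unrelated ones -/
lemma exists_nonadj {A : V → V → Prop} {S X : Finset V} (hQ : QuadFree A S) (hX : X ⊆ S)
    (hc : 4 ≤ X.card) : ∃ x ∈ X, ∃ y ∈ X, x ≠ y ∧ ¬ A x y := by
  by_contra hcon
  push Not at hcon
  obtain ⟨Y, hYX, hYc⟩ := Finset.exists_subset_card_eq hc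
  obtain ⟨a, b, c, d, hab, hac, had, hbc, hbd, hcd, hY⟩ := Finset.card_eq_four.1 hYc
  have ha : a ∈ X := hYX (by rw [hY]; simp)
  have hb : b ∈ X := hYX (by rw [hY]; simp)
  have hcc : c ∈ X := hYX (by rw [hY]; simp)
  have hd : d ∈ X := hYX (by rw [hY]; simp)
  exact hQ a (hX ha) b (hX hb) c (hX hcc) d (hX hd) (hcon a ha b hb hab) (hcon a ha c hcc hac)
    (hcon a ha d hd had) (hcon b hb c hcc hbc) (hcon b hb d hd hbd) (hcon c hcc d hd hcd)

/-- A graph without `K₄` on ten vertices has a triangle-free set of six vertices. -/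
lemma ten {A : V → V → Prop} (hsym : ∀ x y, A x y → A y x) (hirr : ∀ x, ¬ A x x)
    {S : Finset V} (hS : S.card = 10) (hQ : QuadFree A S) :
    ∃ X ⊆ S, X.card = 6 ∧ TriFree A X := by
  classical
  by_contra hcon
  have hno : ∀ X ⊆ S, X.card = 6 → ¬ TriFree A X := fun X h1 h2 h3 => hcon ⟨X, h1, h2, h3⟩
  -- (1) degrees are at most five
  have hdeg : ∀ v ∈ S, (S.filter (A v)).card ≤ 5 := by
    intro v hv
    by_contra h
    obtain ⟨Y, hY, hYc⟩ := Finset.exists_subset_card_eq (show 6 ≤ (S.filter (A v)).card by omega)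
    have hYS : Y ⊆ S := hY.trans (Finset.filter_subset _ _)
    refine hno Y hYS hYc ?_
    intro x hx y hy z hz hxy hxz hyz
    exact hQ v hv x (hYS hx) y (hYS hy) z (hYS hz) (Finset.mem_filter.1 (hY hx)).2
      (Finset.mem_filter.1 (hY hy)).2 (Finset.mem_filter.1 (hY hz)).2 hxy hxz hyz
  -- (2) no independent set of four vertices
  have hind4 : ∀ I ⊆ S, I.card = 4 → (∀ x ∈ I, ∀ y ∈ I, ¬ A x y) → False := by
    intro I hIS hIc hI
    have hc6 : (S \ I).card = 6 := by rw [Finset.card_sdiff_of_subset hIS]; omega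
    obtain ⟨x, hx, y, hy, hne, hxy⟩ := exists_nonadj hQ (Finset.sdiff_subset (s := S) (t := I))
      (by omega)
    rw [Finset.mem_sdiff] at hx hy
    have hyx : ¬ A y x := fun h => hxy (hsym _ _ h)
    have hdis : Disjoint I {x, y} := by
      rw [Finset.disjoint_left]
      intro p hp hp2
      simp only [Finset.mem_insert, Finset.mem_singleton] at hp2
      rcases hp2 with rfl | rfl
      · exact hx.2 hp
      · exact hy.2 hp
    refine hno (I ∪ {x, y}) ?_ ?_ ?_
    · intro p hp
      simp only [Finset.mem_union, Finset.mem_insert, Finset.mem_singleton] at hp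
      rcases hp with hp | rfl | rfl
      · exact hIS hp
      · exact hx.1
      · exact hy.1
    · rw [Finset.card_union_of_disjoint hdis, Finset.card_pair hne]; omega
    · intro p hp q hq r hr hpq hpr hqr
      simp only [Finset.mem_union, Finset.mem_insert, Finset.mem_singleton] at hp hq hr
      rcases hp with hp | rfl | rfl <;> rcases hq with hq | rfl | rfl <;>
        rcases hr with hr | rfl | rfl <;>
        first
        | exact hI _ hp _ hq hpq
        | exact hI _ hp _ hr hpr
        | exact hI _ hq _ hr hqr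
        | exact hirr _ hpq
        | exact hirr _ hpr
        | exact hirr _ hqr
        | exact hxy hpq
        | exact hxy hpr
        | exact hxy hqr
        | exact hyx hpq
        | exact hyx hpr
        | exact hyx hqr
  -- (3) an independent triple
  obtain ⟨v, hv⟩ : S.Nonempty := Finset.card_pos.1 (by omega)
  have hM : 4 ≤ (S.filter (fun y => y ≠ v ∧ ¬ A v y)).card := by
    have h1 : S = insert v (S.filter (A v) ∪ S.filter (fun y => y ≠ v ∧ ¬ A v y)) := by
      ext y
      simp only [Finset.mem_insert, Finset.mem_union, Finset.mem_filter]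
      constructor
      · intro hy
        by_cases hyv : y = v
        · exact Or.inl hyv
        · by_cases h : A v y
          · exact Or.inr (Or.inl ⟨hy, h⟩)
          · exact Or.inr (Or.inr ⟨hy, hyv, h⟩)
      · rintro (rfl | ⟨h, _⟩ | ⟨h, _⟩)
        · exact hv
        · exact h
        · exact h
    have h2 := Finset.card_insert_le v (S.filter (A v) ∪ S.filter (fun y => y ≠ v ∧ ¬ A v y))
    have h3 := Finset.card_union_le (S.filter (A v)) (S.filter (fun y => y ≠ v ∧ ¬ A v y))
    rw [← h1] at h2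
    have h4 := hdeg v hv
    omega
  obtain ⟨x₁, hx₁, y₁, hy₁, hne₁, hxy₁⟩ := exists_nonadj hQ
    (Finset.filter_subset (fun y => y ≠ v ∧ ¬ A v y) S) hM
  rw [Finset.mem_filter] at hx₁ hy₁
  have hyx₁ : ¬ A y₁ x₁ := fun h => hxy₁ (hsym _ _ h)
  obtain ⟨I, hIS, hIc, hI⟩ : ∃ I ⊆ S, I.card = 3 ∧ ∀ x ∈ I, ∀ y ∈ I, ¬ A x y := by
    refine ⟨{v, x₁, y₁}, ?_, ?_, ?_⟩
    · intro p hp
      simp only [Finset.mem_insert, Finset.mem_singleton] at hp
      rcases hp with rfl | rfl | rfl
      · exact hv
      · exact hx₁.1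
      · exact hy₁.1
    · exact Finset.card_eq_three.2 ⟨v, x₁, y₁, hx₁.2.1.symm, hy₁.2.1.symm, hne₁, rfl⟩
    · intro p hp q hq hpq
      simp only [Finset.mem_insert, Finset.mem_singleton] at hp hq
      rcases hp with rfl | rfl | rfl <;> rcases hq with rfl | rfl | rfl <;>
        first
        | exact hirr _ hpq
        | exact hx₁.2.2 hpq
        | exact hx₁.2.2 (hsym _ _ hpq)
        | exact hy₁.2.2 hpq
        | exact hy₁.2.2 (hsym _ _ hpq)
        | exact hxy₁ hpq
        | exact hyx₁ hpq
  set R := S \ I with hR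
  have hRS : R ⊆ S := Finset.sdiff_subset
  have hRc : R.card = 7 := by rw [hR, Finset.card_sdiff_of_subset hIS]; omega
  have hRI : ∀ x ∈ R, x ∉ I := fun x hx => (Finset.mem_sdiff.1 hx).2
  -- adding three vertices of R to I
  have hunion : ∀ J ⊆ R, J.card = 3 → ¬ TriFree A (I ∪ J) := by
    intro J hJ hJc
    have hdis : Disjoint I J := by
      rw [Finset.disjoint_left]
      intro p hp hp2
      exact hRI p (hJ hp2) hp
    refine hno (I ∪ J) (Finset.union_subset hIS (hJ.trans hRS)) ?_
    rw [Finset.card_union_of_disjoint hdis]; omega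
  -- (4) no independent triple in R
  have hind3 : ∀ x ∈ R, ∀ y ∈ R, ∀ z ∈ R, x ≠ y → x ≠ z → y ≠ z → ¬ A x y → ¬ A x z → A y z := by
    intro x hx y hy z hz hxy hxz hyz nxy nxz
    by_contra nyz
    have nyx : ¬ A y x := fun h => nxy (hsym _ _ h)
    have nzx : ¬ A z x := fun h => nxz (hsym _ _ h)
    have nzy : ¬ A z y := fun h => nyz (hsym _ _ h)
    refine hunion {x, y, z} ?_ (Finset.card_eq_three.2 ⟨x, y, z, hxy, hxz, hyz, rfl⟩) ?_
    · intro p hp
      simp only [Finset.mem_insert, Finset.mem_singleton] at hp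
      rcases hp with rfl | rfl | rfl
      · exact hx
      · exact hy
      · exact hz
    · intro p hp q hq r hr hpq hpr hqr
      have hJ : ∀ p ∈ ({x, y, z} : Finset V), ∀ q ∈ ({x, y, z} : Finset V), ¬ A p q := by
        intro p hp q hq hpq
        simp only [Finset.mem_insert, Finset.mem_singleton] at hp hq
        rcases hp with rfl | rfl | rfl <;> rcases hq with rfl | rfl | rfl <;>
          first
          | exact hirr _ hpq
          | exact nxy hpq
          | exact nxz hpq
          | exact nyz hpq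
          | exact nyx hpq
          | exact nzx hpq
          | exact nzy hpq
      rw [Finset.mem_union] at hp hq hr
      rcases hp with hp | hp <;> rcases hq with hq | hq <;> rcases hr with hr | hr <;>
        first
        | exact hI _ hp _ hq hpq
        | exact hI _ hp _ hr hpr
        | exact hI _ hq _ hr hqr
        | exact hJ _ hp _ hq hpq
        | exact hJ _ hp _ hr hpr
        | exact hJ _ hq _ hr hqr
  -- the complementary graph on R
  set F : V → Finset V := fun x => R.filter (fun y => y ≠ x ∧ ¬ A x y) with hF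
  have hFmem : ∀ x y, y ∈ F x ↔ y ∈ R ∧ y ≠ x ∧ ¬ A x y := by
    intro x y; rw [hF]; simp only [Finset.mem_filter]
  have hFsymm : ∀ x ∈ R, ∀ y ∈ F x, x ∈ F y := by
    intro x hx y hy
    rw [hFmem] at hy ⊢
    exact ⟨hx, hy.2.1.symm, fun h => hy.2.2 (hsym _ _ h)⟩
  have hFadj : ∀ z ∈ R, ∀ x ∈ F z, ∀ y ∈ F z, x ≠ y → A x y := by
    intro z hz x hx y hy hxy
    rw [hFmem] at hx hy
    exact hind3 z hz x hx.1 y hy.1 hx.2.1.symm hy.2.1.symm hxy hx.2.2 hy.2.2
  have hF3 : ∀ x ∈ R, (F x).card ≤ 3 := by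
    intro x hx
    by_contra h
    have hsub : F x ⊆ S := fun y hy => hRS ((hFmem x y).1 hy).1
    obtain ⟨y, hy, z, hz, hyz, nyz⟩ := exists_nonadj hQ hsub (by omega)
    exact nyz (hFadj x hx y hy z hz hyz)
  -- (5) every vertex of R has a neighbour in I
  set g : V → Finset V := fun x => I.filter (A x) with hg
  have hgmem : ∀ x i, i ∈ g x ↔ i ∈ I ∧ A x i := by
    intro x i; rw [hg]; simp only [Finset.mem_filter]
  have hg1 : ∀ x ∈ R, 1 ≤ (g x).card := by
    intro x hx
    by_contra h
    have h0 : g x = ∅ := Finset.card_eq_zero.1 (by omega)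
    have hx0 : ∀ i ∈ I, ¬ A x i := by
      intro i hi hxi
      have : i ∈ g x := (hgmem x i).2 ⟨hi, hxi⟩
      rw [h0] at this
      exact absurd this (Finset.notMem_empty _)
    refine hind4 (insert x I) ?_ ?_ ?_
    · intro p hp
      rcases Finset.mem_insert.1 hp with rfl | hp
      · exact hRS hx
      · exact hIS hp
    · rw [Finset.card_insert_of_notMem (hRI x hx)]; omega
    · intro p hp q hq hpq
      rcases Finset.mem_insert.1 hp with hp1 | hp1
      · rcases Finset.mem_insert.1 hq with hq1 | hq1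
        · rw [hp1, hq1] at hpq; exact hirr _ hpq
        · rw [hp1] at hpq; exact hx0 q hq1 hpq
      · rcases Finset.mem_insert.1 hq with hq1 | hq1
        · rw [hq1] at hpq; exact hx0 p hp1 (hsym _ _ hpq)
        · exact hI p hp1 q hq1 hpq
  -- (7)
  have hFg : ∀ x ∈ R, 1 + (g x).card ≤ (F x).card := by
    intro x hx
    have h1 : S.filter (A x) = R.filter (A x) ∪ g x := by
      ext y
      rw [Finset.mem_union, hgmem]
      simp only [Finset.mem_filter, hR, Finset.mem_sdiff]
      constructor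
      · rintro ⟨hy, hxy⟩
        by_cases hyI : y ∈ I
        · exact Or.inr ⟨hyI, hxy⟩
        · exact Or.inl ⟨⟨hy, hyI⟩, hxy⟩
      · rintro (⟨⟨hy, _⟩, hxy⟩ | ⟨hy, hxy⟩)
        · exact ⟨hy, hxy⟩
        · exact ⟨hIS hy, hxy⟩
    have h2 : (S.filter (A x)).card = (R.filter (A x)).card + (g x).card := by
      rw [h1]
      apply Finset.card_union_of_disjoint
      rw [Finset.disjoint_left]
      intro y hy hy2
      exact hRI y (Finset.mem_filter.1 hy).1 ((hgmem x y).1 hy2).1
    have h3 : R = insert x (R.filter (A x) ∪ F x) := by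
      ext y
      rw [Finset.mem_insert, Finset.mem_union, hFmem, Finset.mem_filter]
      constructor
      · intro hy
        by_cases hyx : y = x
        · exact Or.inl hyx
        · by_cases h : A x y
          · exact Or.inr (Or.inl ⟨hy, h⟩)
          · exact Or.inr (Or.inr ⟨hy, hyx, h⟩)
      · rintro (rfl | ⟨h, _⟩ | ⟨h, _⟩)
        · exact hx
        · exact h
        · exact h
    have h4 := Finset.card_insert_le x (R.filter (A x) ∪ F x)
    have h5 := Finset.card_union_le (R.filter (A x)) (F x)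
    rw [← h3] at h4
    have h6 := hdeg x (hRS hx)
    omega
  have hF2 : ∀ x ∈ R, 2 ≤ (F x).card := fun x hx => by
    have := hFg x hx; have := hg1 x hx; omega
  -- (8) a common neighbour in I
  have hcommon : ∀ z ∈ R, ∀ x ∈ F z, ∀ y ∈ F z, x ≠ y → ∃ i ∈ I, A x i ∧ A y i := by
    intro z hz x hx y hy hxy
    by_contra hnone
    push Not at hnone
    have hx' := (hFmem z x).1 hx
    have hy' := (hFmem z y).1 hy
    have nxz : ¬ A x z := fun h => hx'.2.2 (hsym _ _ h)
    have nyz : ¬ A y z := fun h => hy'.2.2 (hsym _ _ h)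
    have hi1 : ∀ i ∈ I, A i x → A i y → False := fun i hi h1 h2 =>
      hnone i hi (hsym _ _ h1) (hsym _ _ h2)
    refine hunion {x, y, z} ?_ (Finset.card_eq_three.2 ⟨x, y, z, hxy, hx'.2.1, hy'.2.1, rfl⟩) ?_
    · intro p hp
      simp only [Finset.mem_insert, Finset.mem_singleton] at hp
      rcases hp with rfl | rfl | rfl
      · exact hx'.1
      · exact hy'.1
      · exact hz
    · intro p hp q hq r hr hpq hpr hqr
      have hqp := hsym _ _ hpq
      have hrp := hsym _ _ hpr
      have hrq := hsym _ _ hqr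
      simp only [Finset.mem_union, Finset.mem_insert, Finset.mem_singleton] at hp hq hr
      rcases hp with hp | rfl | rfl | rfl <;> rcases hq with hq | rfl | rfl | rfl <;>
        rcases hr with hr | rfl | rfl | rfl <;>
        first
        | exact hI _ hp _ hq hpq
        | exact hI _ hp _ hr hpr
        | exact hI _ hq _ hr hqr
        | exact hirr _ hpq
        | exact hirr _ hpr
        | exact hirr _ hqr
        | exact hx'.2.2 hpq
        | exact hx'.2.2 hpr
        | exact hx'.2.2 hqr
        | exact hy'.2.2 hpq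
        | exact hy'.2.2 hpr
        | exact hy'.2.2 hqr
        | exact nxz hpq
        | exact nxz hpr
        | exact nxz hqr
        | exact nyz hpq
        | exact nyz hpr
        | exact nyz hqr
        | exact hi1 _ hp hpq hpr
        | exact hi1 _ hp hpr hpq
        | exact hi1 _ hq hqp hqr
        | exact hi1 _ hq hqr hqp
        | exact hi1 _ hr hrp hrq
        | exact hi1 _ hr hrq hrp
  -- closed sets have at least four elements
  have hclosed : ∀ C ⊆ R, C.Nonempty → (∀ x ∈ C, F x ⊆ C) → 4 ≤ C.card := by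
    intro C hC hCne hcl
    obtain ⟨x, hx⟩ := hCne
    obtain ⟨y, hy, z, hz, hyz⟩ := Finset.one_lt_card.1 (hF2 x (hC hx))
    have hyC := hcl x hx hy
    have hzC := hcl x hx hz
    have hyx := ((hFmem x y).1 hy).2.1
    have hzx := ((hFmem x z).1 hz).2.1
    obtain ⟨w, hw, hwx⟩ : ∃ w ∈ F y, w ≠ x := by
      obtain ⟨a, ha, b, hb, hab⟩ := Finset.one_lt_card.1 (hF2 y (hC hyC))
      by_cases h : a = x
      · exact ⟨b, hb, fun h' => hab (h.trans h'.symm)⟩
      · exact ⟨a, ha, h⟩
    have hw' := (hFmem y w).1 hw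
    have hwC := hcl y hyC hw
    have hwz : w ≠ z := by
      rintro rfl
      exact hw'.2.2 (hFadj x (hC hx) y hy w hz hyz)
    have hcard : ({x, y, z, w} : Finset V).card = 4 :=
      Finset.card_eq_four.2 ⟨x, y, z, w, hyx.symm, hzx.symm, hwx.symm, hyz, hw'.2.1.symm,
        hwz.symm, rfl⟩
    rw [← hcard]
    apply Finset.card_le_card
    intro p hp
    simp only [Finset.mem_insert, Finset.mem_singleton] at hp
    rcases hp with rfl | rfl | rfl | rfl
    · exact hx
    · exact hyC
    · exact hzC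
    · exact hwC
  -- hence a nonempty closed set is everything
  have hall : ∀ C ⊆ R, C.Nonempty → (∀ x ∈ C, F x ⊆ C) → C = R := by
    intro C hC hCne hcl
    by_contra hne
    have hne2 : (R \ C).Nonempty := by
      rw [Finset.sdiff_nonempty]
      exact fun h => hne (Finset.Subset.antisymm hC h)
    have h1 := hclosed C hC hCne hcl
    have h2 := hclosed (R \ C) Finset.sdiff_subset hne2 (by
      intro x hx y hy
      rw [Finset.mem_sdiff] at hx ⊢
      refine ⟨((hFmem x y).1 hy).1, fun hyC => hx.2 (hcl y hyC (hFsymm x hx.1 y hy))⟩)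
    have h3 : (R \ C).card = R.card - C.card := Finset.card_sdiff_of_subset hC
    have h4 := Finset.card_le_card hC
    omega
  -- (9) neighbours of a vertex of degree three have degree three
  have hthree : ∀ z ∈ R, (F z).card = 3 → ∀ a ∈ F z, (F a).card = 3 := by
    intro z hz h3 a ha
    have haR := ((hFmem z a).1 ha).1
    have herase : ((F z).erase a).card = 2 := by rw [Finset.card_erase_of_mem ha]; omega
    obtain ⟨b, c, hbc, hbcs⟩ := Finset.card_eq_two.1 herase
    have hb : b ∈ (F z).erase a := by rw [hbcs]; simp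
    have hc : c ∈ (F z).erase a := by rw [hbcs]; simp
    rw [Finset.mem_erase] at hb hc
    obtain ⟨i, hi, hai, hbi⟩ := hcommon z hz a ha b hb.2 hb.1.symm
    obtain ⟨j, hj, haj, hcj⟩ := hcommon z hz a ha c hc.2 hc.1.symm
    have hij : i ≠ j := by
      rintro rfl
      exact hQ a (hRS haR) b (hRS ((hFmem z b).1 hb.2).1) c (hRS ((hFmem z c).1 hc.2).1) i (hIS hi)
        (hFadj z hz a ha b hb.2 hb.1.symm) (hFadj z hz a ha c hc.2 hc.1.symm) hai
        (hFadj z hz b hb.2 c hc.2 hbc) hbi hcj
    have h2 : 1 < (g a).card := Finset.one_lt_card.2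
      ⟨i, (hgmem a i).2 ⟨hi, hai⟩, j, (hgmem a j).2 ⟨hj, haj⟩, hij⟩
    have h4 := hFg a haR
    have h5 := hF3 a haR
    omega
  -- (10) there is no vertex of degree three
  have hnothree : ∀ x ∈ R, (F x).card = 2 := by
    intro x hx
    by_contra hx2
    have hx3 : (F x).card = 3 := by have := hF2 x hx; have := hF3 x hx; omega
    have hD := hall (R.filter (fun x => (F x).card = 3)) (Finset.filter_subset _ _)
      ⟨x, Finset.mem_filter.2 ⟨hx, hx3⟩⟩ (by
        intro y hy z hz
        rw [Finset.mem_filter] at hy ⊢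
        exact ⟨((hFmem y z).1 hz).1, hthree y hy.1 hy.2 z hz⟩)
    have hall3 : ∀ y ∈ R, (F y).card = 3 := by
      intro y hy
      rw [← hD, Finset.mem_filter] at hy
      exact hy.2
    have hsum : (R.sigma F).card = 21 := by
      rw [Finset.card_sigma, Finset.sum_congr rfl hall3, Finset.sum_const, hRc]
      rfl
    have hinv : ∑ p ∈ R.sigma F, (1 : ZMod 2) = 0 := by
      refine Finset.sum_involution (fun p _ => ⟨p.2, p.1⟩) ?_ ?_ ?_ ?_
      · intro p _; decide
      · rintro ⟨a, b⟩ hp _ heq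
        rw [Finset.mem_sigma] at hp
        have hb := (hFmem a b).1 hp.2
        simp only [Sigma.mk.injEq] at heq
        exact hb.2.1 heq.1
      · rintro ⟨a, b⟩ hp
        rw [Finset.mem_sigma] at hp ⊢
        exact ⟨((hFmem a b).1 hp.2).1, hFsymm a hp.1 b hp.2⟩
      · rintro ⟨a, b⟩ _; rfl
    rw [Finset.sum_const, hsum] at hinv
    revert hinv
    decide
  have hg1' : ∀ x ∈ R, (g x).card = 1 := by
    intro x hx
    have := hFg x hx; have := hg1 x hx; have := hnothree x hx; omega
  have hguniq : ∀ x ∈ R, ∀ i ∈ I, ∀ j ∈ I, A x i → A x j → i = j := by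
    intro x hx i hi j hj hxi hxj
    by_contra hij
    have := Finset.one_lt_card.2
      ⟨i, (hgmem x i).2 ⟨hi, hxi⟩, j, (hgmem x j).2 ⟨hj, hxj⟩, hij⟩
    have := hg1' x hx
    omega
  -- (11) the final contradiction
  obtain ⟨x₀, hx₀⟩ : R.Nonempty := Finset.card_pos.1 (by omega)
  obtain ⟨i, hi⟩ : (g x₀).Nonempty := Finset.card_pos.1 (by have := hg1 x₀ hx₀; omega)
  rw [hgmem] at hi
  obtain ⟨y₀, hy₀⟩ : (F x₀).Nonempty := Finset.card_pos.1 (by have := hF2 x₀ hx₀; omega)
  have hy₀R := ((hFmem x₀ y₀).1 hy₀).1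
  obtain ⟨j, hj⟩ : (g y₀).Nonempty := Finset.card_pos.1 (by have := hg1 y₀ hy₀R; omega)
  rw [hgmem] at hj
  -- neighbours of z share their element of I
  have hshare : ∀ z ∈ R, ∀ x ∈ F z, ∀ y ∈ F z, ∀ k ∈ I, A x k → A y k := by
    intro z hz x hx y hy k hk hxk
    by_cases hxy : x = y
    · rwa [← hxy]
    · obtain ⟨l, hl, hxl, hyl⟩ := hcommon z hz x hx y hy hxy
      have := hguniq x ((hFmem z x).1 hx).1 k hk l hl hxk hxl
      rw [this]; exact hyl
  have hC := hall (R.filter (fun x => (A x i ∧ ∀ y ∈ F x, A y j) ∨ (A x j ∧ ∀ y ∈ F x, A y i)))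
    (Finset.filter_subset _ _) ⟨x₀, Finset.mem_filter.2 ⟨hx₀, Or.inl ⟨hi.2, fun y hy =>
      hshare x₀ hx₀ y₀ hy₀ y hy j hj.1 hj.2⟩⟩⟩ (by
    intro x hx y hy
    rw [Finset.mem_filter] at hx ⊢
    have hyR := ((hFmem x y).1 hy).1
    have hxy := hFsymm x hx.1 y hy
    refine ⟨hyR, ?_⟩
    rcases hx.2 with ⟨h1, h2⟩ | ⟨h1, h2⟩
    · right
      exact ⟨h2 y hy, fun z hz => hshare y hyR x hxy z hz i hi.1 h1⟩
    · left
      exact ⟨h2 y hy, fun z hz => hshare y hyR x hxy z hz j hj.1 h1⟩)
  have hCmem : ∀ x ∈ R, (A x i ∧ ∀ y ∈ F x, A y j) ∨ (A x j ∧ ∀ y ∈ F x, A y i) := by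
    intro x hx
    rw [← hC, Finset.mem_filter] at hx
    exact hx.2
  by_cases hij : i = j
  · subst hij
    have hsub : R ⊆ S.filter (A i) := by
      intro x hx
      rw [Finset.mem_filter]
      refine ⟨hRS hx, hsym _ _ ?_⟩
      rcases hCmem x hx with h | h <;> exact h.1
    have h1 := Finset.card_le_card hsub
    have h2 := hdeg i (hIS hi.1)
    omega
  · have hclique : ∀ k ∈ I, ∀ l ∈ I, k ≠ l →
        (∀ x ∈ R, (A x k ∧ ∀ y ∈ F x, A y l) ∨ (A x l ∧ ∀ y ∈ F x, A y k)) →
        (R.filter (fun x => A x k)).card ≤ 3 := by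
      intro k hk l hl hkl hmem
      by_contra hcard
      obtain ⟨x, hx, y, hy, hxy, nxy⟩ := exists_nonadj hQ
        ((Finset.filter_subset (fun x => A x k) R).trans hRS) (by omega)
      rw [Finset.mem_filter] at hx hy
      rcases hmem x hx.1 with ⟨_, h2⟩ | ⟨h1, _⟩
      · have hyl := h2 y ((hFmem x y).2 ⟨hy.1, hxy.symm, nxy⟩)
        exact hkl (hguniq y hy.1 k hk l hl hy.2 hyl)
      · exact hkl (hguniq x hx.1 k hk l hl hx.2 h1)
    have h1 := hclique i hi.1 j hj.1 hij hCmem
    have h2 := hclique j hj.1 i hi.1 (Ne.symm hij) (fun x hx => (hCmem x hx).symm)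
    have h3 : R ⊆ R.filter (fun x => A x i) ∪ R.filter (fun x => A x j) := by
      intro x hx
      rw [Finset.mem_union, Finset.mem_filter, Finset.mem_filter]
      rcases hCmem x hx with h | h
      · exact Or.inl ⟨hx, h.1⟩
      · exact Or.inr ⟨hx, h.1⟩
    have h4 := Finset.card_le_card h3
    have h5 := Finset.card_union_le (R.filter (fun x => A x i)) (R.filter (fun x => A x j))
    omega

end

end Pool.Agent.Lib.MP_1ccaae_co
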